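import Mathlib

/-! The convex hull of a compact set in a finite-dimensional space is compact (Caratheodory). -/

set_option autoImplicit false

namespace Pool.Agent.K9h84.S6

open Module

theorem isCompact_convexHull {E : Type*} [NormedAddCommGroup E] [NormedSpace ℝ E]
    [FiniteDimensional ℝ E] {s : Set E} (hs : IsCompact s) : IsCompact (convexHull ℝ s) := by
  classical
  rcases s.eq_empty_or_nonempty with rfl | ⟨x0, hx0⟩
  · simp
  set d := finrank ℝ E + 1 with hd
  have hcomp : IsCompact ((stdSimplex ℝ (Fin d)) ×ˢ (Set.univ.pi fun _ : Fin d => s)) :=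
    (isCompact_stdSimplex ℝ (Fin d)).prod (isCompact_univ_pi fun _ => hs)
  have hcont : Continuous (fun q : (Fin d → ℝ) × (Fin d → E) => ∑ i, q.1 i • q.2 i) := by
    fun_prop
  have himg : convexHull ℝ s = (fun q : (Fin d → ℝ) × (Fin d → E) => ∑ i, q.1 i • q.2 i) ''
      ((stdSimplex ℝ (Fin d)) ×ˢ (Set.univ.pi fun _ : Fin d => s)) := by
    ext x
    constructor
    · intro hx
      obtain ⟨ι, _, z, w, hz, haff, hw0, hw1, hwx⟩ := eq_pos_convex_span_of_mem_convexHull hx
      have hcard : Fintype.card ι ≤ Fintype.card (Fin d) := by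
        rw [Fintype.card_fin]
        exact haff.card_le_finrank_succ.trans (by
          have := Submodule.finrank_le (vectorSpan ℝ (Set.range z))
          omega)
      obtain ⟨e⟩ := Function.Embedding.nonempty_of_card_le hcard
      refine ⟨⟨fun i => if h : ∃ j, e j = i then w h.choose else 0,
        fun i => if h : ∃ j, e j = i then z h.choose else x0⟩, ⟨⟨fun i => ?_, ?_⟩, fun i _ => ?_⟩, ?_⟩
      · dsimp only
        split_ifs with h
        · exact (hw0 _).le
        · exact le_rfl
      · dsimp only
        rw [← hw1]
        symm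
        apply Finset.sum_of_injOn e e.injective.injOn (fun _ _ => Finset.mem_coe.2 (Finset.mem_univ _))
        · intro i _ hi
          rw [dif_neg]
          rintro ⟨j, hj⟩
          exact hi ⟨j, Finset.mem_coe.2 (Finset.mem_univ _), hj⟩
        · intro j _
          have h : ∃ j', e j' = e j := ⟨j, rfl⟩
          rw [dif_pos h, e.injective h.choose_spec]
      · dsimp only
        split_ifs with h
        · exact hz (Set.mem_range_self _)
        · exact hx0
      · dsimp only
        rw [← hwx]
        symm
        apply Finset.sum_of_injOn e e.injective.injOn (fun _ _ => Finset.mem_coe.2 (Finset.mem_univ _))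
        · intro i _ hi
          rw [dif_neg, zero_smul]
          rintro ⟨j, hj⟩
          exact hi ⟨j, Finset.mem_coe.2 (Finset.mem_univ _), hj⟩
        · intro j _
          have h : ∃ j', e j' = e j := ⟨j, rfl⟩
          rw [dif_pos h, dif_pos h, e.injective h.choose_spec]
    · rintro ⟨⟨w, z⟩, ⟨⟨hw0, hw1⟩, hz⟩, rfl⟩
      exact (convex_convexHull ℝ s).sum_mem (fun i _ => hw0 i) hw1
        (fun i _ => subset_convexHull ℝ s (hz i (Set.mem_univ i)))
  rw [himg]
  exact hcomp.image hcont

end Pool.Agent.K9h84.S6
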